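import Pool.Agent.Run7.h991.BC.Iface

/-!
# MP_9b3711_an: piece PE (Peetre's inequality, helper126)
-/

set_option autoImplicit false

open MeasureTheory FourierTransform SchwartzMap Filter
open scoped ENNReal ContDiff

namespace Run7.h126.BC

open Run7.h991.BC

/-- decay of a Schwartz function with a real exponent -/
theorem decay {n : ℕ} (Φ : 𝓢(E n, ℂ)) (lam : ℝ) :
    ∃ C : ℝ, 0 ≤ C ∧ ∀ y, ‖Φ y‖ * (1 + ‖y‖) ^ lam ≤ C := by
  obtain ⟨k, hk⟩ := exists_nat_ge lam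
  refine ⟨2 ^ k * (Finset.Iic (k, 0)).sup (fun m => SchwartzMap.seminorm ℝ m.1 m.2) Φ, ?_,
    fun y => ?_⟩
  · have : 0 ≤ ((Finset.Iic (k, 0)).sup (fun m => SchwartzMap.seminorm ℝ m.1 m.2)) Φ :=
      apply_nonneg _ _
    positivity
  · have h := one_add_le_sup_seminorm_apply (𝕜 := ℝ) (m := (k, 0)) (k := k) (n := 0) le_rfl le_rfl
      Φ y
    rw [norm_iteratedFDeriv_zero] at h
    refine le_trans ?_ h
    rw [mul_comm]
    refine mul_le_mul_of_nonneg_right ?_ (norm_nonneg _)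
    rw [← Real.rpow_natCast]
    exact Real.rpow_le_rpow_of_exponent_le (by linarith [norm_nonneg y]) hk

/-- the change of variables `z = w + y / 2` -/
theorem chv {n : ℕ} (g : E n → ℝ≥0∞) (hg : Measurable g) (w : E n) :
    ∫⁻ y, g (w + (1 / 2 : ℝ) • y) = ENNReal.ofReal (2 ^ n) * ∫⁻ z, g z := by
  have h1 : ∫⁻ y, g (w + (1 / 2 : ℝ) • y) =
      ∫⁻ z, g (w + z) ∂(Measure.map (fun y : E n => (1 / 2 : ℝ) • y) volume) := by
    exact (lintegral_map (f := fun z => g (w + z)) (hg.comp (measurable_const_add w))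
      (measurable_const_smul _)).symm
  rw [h1, Measure.map_addHaar_smul volume (by norm_num), lintegral_smul_measure,
    lintegral_add_left_eq_self]
  congr 2
  simp

theorem t_PE : S_PE := by
  intro n Φ r L hr hr1 hL
  set lam : ℝ := L / r with hlam
  have hlam0 : 0 ≤ lam := div_nonneg hL hr.le
  obtain ⟨CΦ, hC0, hC⟩ := decay Φ lam
  refine ⟨ENNReal.ofReal CΦ * ENNReal.ofReal (2 ^ n), ENNReal.mul_ne_top ENNReal.ofReal_ne_top
    ENNReal.ofReal_ne_top, ?_⟩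
  rintro v hv ⟨B, hB⟩ j hrep x
  set a : ℝ := (2 : ℝ) ^ (-j) with ha
  have ha1 : (2 : ℝ) ^ (-(j + 1)) = a * (1 / 2) := by
    rw [ha, neg_add, zpow_add₀ (by norm_num), zpow_neg_one]
    ring
  -- the maximal function
  set M : ℝ≥0∞ := ⨆ w : E n, ‖v (x - a • w)‖ₑ * ENNReal.ofReal ((1 + ‖w‖) ^ (-lam)) with hM
  have hpos : ∀ w : E n, 0 < 1 + ‖w‖ := fun w => by linarith [norm_nonneg w]
  have hMtop : M ≠ ⊤ := by
    refine ne_top_of_le_ne_top (ENNReal.ofReal_ne_top (r := B)) (iSup_le fun w => ?_)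
    have h1 : ‖v (x - a • w)‖ₑ ≤ ENNReal.ofReal B := by
      rw [← ofReal_norm]
      exact ENNReal.ofReal_le_ofReal (hB _)
    have h2 : ENNReal.ofReal ((1 + ‖w‖) ^ (-lam)) ≤ 1 := by
      rw [← ENNReal.ofReal_one]
      refine ENNReal.ofReal_le_ofReal ?_
      exact Real.rpow_le_one_of_one_le_of_nonpos (by linarith [norm_nonneg w]) (by linarith)
    calc _ ≤ ENNReal.ofReal B * 1 := mul_le_mul' h1 h2
      _ = _ := mul_one _
  have hMv : ∀ w : E n, ‖v (x - a • w)‖ₑ ≤ M * ENNReal.ofReal ((1 + ‖w‖) ^ lam) := by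
    intro w
    have h1 : ‖v (x - a • w)‖ₑ * ENNReal.ofReal ((1 + ‖w‖) ^ (-lam)) ≤ M :=
      le_iSup (fun w : E n => ‖v (x - a • w)‖ₑ * ENNReal.ofReal ((1 + ‖w‖) ^ (-lam))) w
    calc ‖v (x - a • w)‖ₑ = ‖v (x - a • w)‖ₑ * ENNReal.ofReal ((1 + ‖w‖) ^ (-lam)) *
          ENNReal.ofReal ((1 + ‖w‖) ^ lam) := by
          rw [mul_assoc, ← ENNReal.ofReal_mul (by have := hpos w; positivity),
            ← Real.rpow_add (hpos w), neg_add_cancel, Real.rpow_zero, ENNReal.ofReal_one, mul_one]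
      _ ≤ _ := mul_le_mul_left h1 _
  -- the integrand on the right
  set g : E n → ℝ≥0∞ := fun z => ‖v (x - a • z)‖ₑ ^ r * ENNReal.ofReal (kap L z) with hg
  have hgm : Measurable g := by
    refine Measurable.mul ?_ ?_
    · refine Measurable.pow_const ?_ _
      exact (hv.comp (continuous_const.sub (continuous_const_smul a))).measurable.enorm
    · refine ENNReal.measurable_ofReal.comp ?_
      unfold kap
      exact (measurable_const.add measurable_norm).pow_const _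
  have hI : T L j (fun z => ‖v z‖ₑ ^ r) x = ∫⁻ z, g z := rfl
  rw [hI]
  -- pointwise estimate
  have hpt : ∀ w y : E n, ‖Φ y * v (x - a • w - (a * (1 / 2)) • y)‖ₑ *
      ENNReal.ofReal ((1 + ‖w‖) ^ (-lam)) ≤
      ENNReal.ofReal CΦ * M ^ (1 - r) * g (w + (1 / 2 : ℝ) • y) := by
    intro w y
    have e1 : x - a • w - (a * (1 / 2)) • y = x - a • (w + (1 / 2 : ℝ) • y) := by
      rw [smul_add, smul_smul, sub_sub]
    rw [e1]
    set w' : E n := w + (1 / 2 : ℝ) • y with hw'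
    have h1 : ‖v (x - a • w')‖ₑ ≤ M ^ (1 - r) * ENNReal.ofReal ((1 + ‖w'‖) ^ (lam * (1 - r))) *
        ‖v (x - a • w')‖ₑ ^ r := by
      have h2 : ‖v (x - a • w')‖ₑ = ‖v (x - a • w')‖ₑ ^ (1 - r) * ‖v (x - a • w')‖ₑ ^ r := by
        rw [← ENNReal.rpow_add_of_nonneg _ _ (by linarith) hr.le, sub_add_cancel, ENNReal.rpow_one]
      have h3 : ‖v (x - a • w')‖ₑ ^ (1 - r) ≤
          M ^ (1 - r) * ENNReal.ofReal ((1 + ‖w'‖) ^ (lam * (1 - r))) := by
        refine (ENNReal.rpow_le_rpow (hMv w') (by linarith)).trans (le_of_eq ?_)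
        rw [ENNReal.mul_rpow_of_nonneg _ _ (by linarith), ENNReal.ofReal_rpow_of_nonneg
          (by have := hpos w'; positivity) (by linarith), ← Real.rpow_mul (hpos w').le]
      calc ‖v (x - a • w')‖ₑ = ‖v (x - a • w')‖ₑ ^ (1 - r) * ‖v (x - a • w')‖ₑ ^ r := h2
        _ ≤ _ := mul_le_mul_left h3 _
    have h4 : ‖Φ y‖ * (1 + ‖w'‖) ^ (lam * (1 - r)) * (1 + ‖w‖) ^ (-lam) ≤ CΦ * kap L w' := by
      unfold kap
      have h5 : 1 + ‖w'‖ ≤ (1 + ‖w‖) * (1 + ‖y‖) := by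
        have h6 : ‖w'‖ ≤ ‖w‖ + 1 / 2 * ‖y‖ := by
          refine (norm_add_le _ _).trans ?_
          rw [norm_smul]
          norm_num
        nlinarith [norm_nonneg w, norm_nonneg y, mul_nonneg (norm_nonneg w) (norm_nonneg y)]
      have h7 : (1 + ‖w'‖) ^ (lam * (1 - r)) = (1 + ‖w'‖) ^ lam * (1 + ‖w'‖) ^ (-L) := by
        rw [← Real.rpow_add (hpos w')]
        congr 1
        rw [hlam]
        field_simp
        ring
      have h8 : (1 + ‖w'‖) ^ lam ≤ (1 + ‖w‖) ^ lam * (1 + ‖y‖) ^ lam := by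
        rw [← Real.mul_rpow (hpos w).le (hpos y).le]
        exact Real.rpow_le_rpow (hpos w').le h5 hlam0
      have h9 : (1 + ‖w‖) ^ lam * (1 + ‖w‖) ^ (-lam) = 1 := by
        rw [← Real.rpow_add (hpos w), add_neg_cancel, Real.rpow_zero]
      have p1 : 0 ≤ (1 + ‖w'‖) ^ (-L) := by have := hpos w'; positivity
      have p2 : 0 ≤ (1 + ‖w‖) ^ (-lam) := by have := hpos w; positivity
      calc ‖Φ y‖ * (1 + ‖w'‖) ^ (lam * (1 - r)) * (1 + ‖w‖) ^ (-lam)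
          = ‖Φ y‖ * (1 + ‖w'‖) ^ lam * (1 + ‖w'‖) ^ (-L) * (1 + ‖w‖) ^ (-lam) := by
            rw [h7]; ring
        _ ≤ ‖Φ y‖ * ((1 + ‖w‖) ^ lam * (1 + ‖y‖) ^ lam) * (1 + ‖w'‖) ^ (-L) *
            (1 + ‖w‖) ^ (-lam) := by gcongr
        _ = (‖Φ y‖ * (1 + ‖y‖) ^ lam) * (1 + ‖w'‖) ^ (-L) *
            ((1 + ‖w‖) ^ lam * (1 + ‖w‖) ^ (-lam)) := by ring
        _ = (‖Φ y‖ * (1 + ‖y‖) ^ lam) * (1 + ‖w'‖) ^ (-L) := by rw [h9, mul_one]
        _ ≤ CΦ * (1 + ‖w'‖) ^ (-L) := by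
            gcongr
            exact hC y
    have h10 : ‖Φ y‖ₑ * ENNReal.ofReal ((1 + ‖w'‖) ^ (lam * (1 - r))) *
        ENNReal.ofReal ((1 + ‖w‖) ^ (-lam)) ≤ ENNReal.ofReal CΦ * ENNReal.ofReal (kap L w') := by
      rw [← ofReal_norm, ← ENNReal.ofReal_mul (norm_nonneg _), ← ENNReal.ofReal_mul
        (by have := hpos w'; positivity), ← ENNReal.ofReal_mul hC0]
      exact ENNReal.ofReal_le_ofReal h4
    rw [enorm_mul]
    calc ‖Φ y‖ₑ * ‖v (x - a • w')‖ₑ * ENNReal.ofReal ((1 + ‖w‖) ^ (-lam))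
        ≤ ‖Φ y‖ₑ * (M ^ (1 - r) * ENNReal.ofReal ((1 + ‖w'‖) ^ (lam * (1 - r))) *
          ‖v (x - a • w')‖ₑ ^ r) * ENNReal.ofReal ((1 + ‖w‖) ^ (-lam)) := by gcongr
      _ = (‖Φ y‖ₑ * ENNReal.ofReal ((1 + ‖w'‖) ^ (lam * (1 - r))) *
          ENNReal.ofReal ((1 + ‖w‖) ^ (-lam))) * (M ^ (1 - r) * ‖v (x - a • w')‖ₑ ^ r) := by ring
      _ ≤ (ENNReal.ofReal CΦ * ENNReal.ofReal (kap L w')) *
          (M ^ (1 - r) * ‖v (x - a • w')‖ₑ ^ r) := by gcongr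
      _ = ENNReal.ofReal CΦ * M ^ (1 - r) * g w' := by
          rw [hg]
          ring
  have hMle : M ≤ (ENNReal.ofReal CΦ * ENNReal.ofReal (2 ^ n) * ∫⁻ z, g z) * M ^ (1 - r) := by
    rw [hM]
    refine iSup_le fun w => ?_
    rw [← hM, hrep (x - a • w)]
    unfold S
    rw [ha1]
    calc ‖∫ y, Φ y * v (x - a • w - (a * (1 / 2)) • y)‖ₑ * ENNReal.ofReal ((1 + ‖w‖) ^ (-lam))
        ≤ (∫⁻ y, ‖Φ y * v (x - a • w - (a * (1 / 2)) • y)‖ₑ) *
          ENNReal.ofReal ((1 + ‖w‖) ^ (-lam)) :=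
          mul_le_mul_left (enorm_integral_le_lintegral_enorm _) _
      _ = ∫⁻ y, ‖Φ y * v (x - a • w - (a * (1 / 2)) • y)‖ₑ *
          ENNReal.ofReal ((1 + ‖w‖) ^ (-lam)) := by
          rw [lintegral_mul_const' _ _ ENNReal.ofReal_ne_top]
      _ ≤ ∫⁻ y, ENNReal.ofReal CΦ * M ^ (1 - r) * g (w + (1 / 2 : ℝ) • y) :=
          lintegral_mono fun y => hpt w y
      _ = ENNReal.ofReal CΦ * M ^ (1 - r) * (ENNReal.ofReal (2 ^ n) * ∫⁻ z, g z) := by
          rw [lintegral_const_mul' _ _ (ENNReal.mul_ne_top ENNReal.ofReal_ne_top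
            (ENNReal.rpow_ne_top_of_nonneg (by linarith) hMtop)), chv g hgm w]
      _ = _ := by ring
  have hx : ‖v x‖ₑ ≤ M := by
    have h1 := le_iSup (fun w : E n => ‖v (x - a • w)‖ₑ * ENNReal.ofReal ((1 + ‖w‖) ^ (-lam))) 0
    simpa using h1
  by_cases hM0 : M = 0
  · have : ‖v x‖ₑ = 0 := le_antisymm (hx.trans hM0.le) zero_le
    rw [this, ENNReal.zero_rpow_of_pos hr]
    exact zero_le
  · have h1 : M = M ^ r * M ^ (1 - r) := by
      rw [← ENNReal.rpow_add_of_nonneg _ _ hr.le (by linarith), add_sub_cancel, ENNReal.rpow_one]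
    have h2 : M ^ r * M ^ (1 - r) ≤
        (ENNReal.ofReal CΦ * ENNReal.ofReal (2 ^ n) * ∫⁻ z, g z) * M ^ (1 - r) := by
      rw [← h1]
      exact hMle
    have h3 : M ^ (1 - r) ≠ 0 := by
      intro h
      rw [ENNReal.rpow_eq_zero_iff] at h
      rcases h with ⟨h, -⟩ | ⟨h, -⟩
      · exact hM0 h
      · exact hMtop h
    have h4 : M ^ (1 - r) ≠ ⊤ := ENNReal.rpow_ne_top_of_nonneg (by linarith) hMtop
    rw [mul_comm (M ^ r), mul_comm _ (M ^ (1 - r)), ENNReal.mul_le_mul_iff_right h3 h4] at h2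
    exact (ENNReal.rpow_le_rpow hx hr.le).trans h2

end Run7.h126.BC
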