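import Pool.Agent.Run7.h991.BC.Iface

/-!
# MP_9b3711_an: pieces RP and CUT (helper126)

`t_RP : S_RP`, `t_CUT : S_CUT`.
-/

set_option autoImplicit false

open MeasureTheory FourierTransform SchwartzMap Filter
open scoped ENNReal ContDiff RealInnerProductSpace

namespace Run7.h126.BC

open Run7.h991.BC

/-- continuity of the inverse Fourier transform of an integrable function -/
theorem cont_inv {n : ℕ} {w : E n → ℂ} (hw : Integrable w) : Continuous (𝓕⁻ w) := by
  have h : 𝓕⁻ w = fun x => 𝓕 w (-x) := by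
    funext x
    exact Real.fourierInv_eq_fourier_neg w x
  rw [h]
  have := VectorFourier.fourierIntegral_continuous (L := innerₗ (E n)) Real.continuous_fourierChar
    (by exact continuous_inner) hw
  exact this.comp continuous_neg

theorem norm_inv_le {n : ℕ} (w : E n → ℂ) (x : E n) : ‖𝓕⁻ w x‖ ≤ ∫ ξ, ‖w ξ‖ := by
  rw [Real.fourierInv_eq]
  refine (norm_integral_le_integral_norm _).trans (le_of_eq ?_)
  simp_rw [Circle.norm_smul]

theorem inv_int {n : ℕ} {w : E n → ℂ} (hw : Integrable w) (x : E n) :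
    Integrable (fun ξ => Real.fourierChar (inner ℝ ξ x) • w ξ) := by
  have h3 : Continuous fun ξ : E n => (Real.fourierChar (inner ℝ ξ x) : ℂ) := by
    have : Continuous fun ξ : E n => (inner ℝ ξ x : ℝ) := by fun_prop
    exact continuous_subtype_val.comp (Real.continuous_fourierChar.comp this)
  refine hw.bdd_mul (c := 1) h3.aestronglyMeasurable (Eventually.of_forall fun ξ => ?_)
  rw [Circle.norm_coe]

/-- the multiplier -/
noncomputable def mul {n : ℕ} (Φ : 𝓢(E n, ℂ)) (j : ℤ) (ξ : E n) : ℂ :=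
  𝓕 (Φ : E n → ℂ) ((2 : ℝ) ^ (-j) • ξ)

theorem mul_cont {n : ℕ} (Φ : 𝓢(E n, ℂ)) (j : ℤ) : Continuous (mul Φ j) := by
  unfold mul
  rw [← fourier_coe]
  exact (𝓕 Φ).continuous.comp (continuous_const_smul _)

theorem mul_bd {n : ℕ} (Φ : 𝓢(E n, ℂ)) : ∃ B : ℝ, 0 ≤ B ∧ ∀ (j : ℤ) (ξ : E n), ‖mul Φ j ξ‖ ≤ B := by
  refine ⟨SchwartzMap.seminorm ℝ 0 0 (𝓕 Φ), apply_nonneg _ _, fun j ξ => ?_⟩
  unfold mul
  rw [← fourier_coe]
  exact norm_le_seminorm ℝ (𝓕 Φ) _

theorem mul_int {n : ℕ} (Φ : 𝓢(E n, ℂ)) (j : ℤ) {w : E n → ℂ} (hw : Integrable w) :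
    Integrable (fun ξ => mul Φ j ξ * w ξ) := by
  obtain ⟨B, hB, h⟩ := mul_bd Φ
  exact hw.bdd_mul (mul_cont Φ j).aestronglyMeasurable (Eventually.of_forall fun ξ => h j ξ)

/-- the action of `S Φ j` on an inverse Fourier transform -/
theorem S_inv {n : ℕ} (Φ : 𝓢(E n, ℂ)) (j : ℤ) {w : E n → ℂ} (hw : Integrable w) :
    S Φ j (𝓕⁻ w) = 𝓕⁻ (fun ξ => mul Φ j ξ * w ξ) := by
  funext x
  unfold S
  have h1 : ∀ y : E n, Φ y * 𝓕⁻ w (x - (2 : ℝ) ^ (-j) • y) =
      ∫ ξ, Φ y * ((Real.fourierChar (inner ℝ ξ (x - (2 : ℝ) ^ (-j) • y)) : ℂ) * w ξ) := by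
    intro y
    rw [Real.fourierInv_eq, ← integral_const_mul]
    rfl
  simp_rw [h1]
  rw [integral_integral_swap]
  · rw [Real.fourierInv_eq]
    refine integral_congr_ae (Eventually.of_forall fun ξ => ?_)
    show (∫ y, Φ y * ((Real.fourierChar (inner ℝ ξ (x - (2 : ℝ) ^ (-j) • y)) : ℂ) * w ξ)) =
      Real.fourierChar (inner ℝ ξ x) • (mul Φ j ξ * w ξ)
    unfold mul
    rw [Real.fourier_eq, Circle.smul_def, smul_eq_mul, ← mul_assoc, ← integral_const_mul,
      ← integral_mul_const]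
    refine integral_congr_ae (Eventually.of_forall fun y => ?_)
    show Φ y * ((Real.fourierChar (inner ℝ ξ (x - (2 : ℝ) ^ (-j) • y)) : ℂ) * w ξ) =
      (Real.fourierChar (inner ℝ ξ x) : ℂ) *
        (Real.fourierChar (-inner ℝ y ((2 : ℝ) ^ (-j) • ξ)) • Φ y) * w ξ
    have h2 : inner ℝ ξ (x - (2 : ℝ) ^ (-j) • y) =
        inner ℝ ξ x + -inner ℝ y ((2 : ℝ) ^ (-j) • ξ) := by
      rw [inner_sub_right, inner_smul_right, inner_smul_right, real_inner_comm ξ y]
      ring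
    rw [h2, AddChar.map_add_eq_mul, Circle.smul_def, smul_eq_mul, Circle.coe_mul]
    ring
  · have h3 : Integrable (fun p : E n × E n => Φ p.1 * w p.2) (volume.prod volume) :=
      Φ.integrable.mul_prod hw
    refine h3.mono ?_ (Eventually.of_forall fun p => ?_)
    · have h4 : (Function.uncurry fun (y ξ : E n) =>
          Φ y * ((Real.fourierChar (inner ℝ ξ (x - (2 : ℝ) ^ (-j) • y)) : ℂ) * w ξ)) =
          fun p : E n × E n => (Real.fourierChar (inner ℝ p.2 (x - (2 : ℝ) ^ (-j) • p.1)) : ℂ) *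
            (Φ p.1 * w p.2) := by
        funext p
        simp only [Function.uncurry]
        ring
      rw [h4]
      refine AEStronglyMeasurable.mul ?_ h3.aestronglyMeasurable
      refine Continuous.aestronglyMeasurable ?_
      have : Continuous fun p : E n × E n => inner ℝ p.2 (x - (2 : ℝ) ^ (-j) • p.1) := by fun_prop
      exact continuous_subtype_val.comp (Real.continuous_fourierChar.comp this)
    · simp only [Function.uncurry]
      rw [norm_mul, norm_mul, norm_mul, Circle.norm_coe, one_mul]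

/-- complexification of a real Schwartz function -/
noncomputable def cs {n : ℕ} (u : 𝓢(E n, ℝ)) : 𝓢(E n, ℂ) := u.postcompCLM Complex.ofRealCLM

theorem cs_coe {n : ℕ} (u : 𝓢(E n, ℝ)) : (cs u : E n → ℂ) = cx u := by
  funext x
  simp [cs, cx]

/-- the Fourier transform of `cx u` -/
noncomputable def ft {n : ℕ} (u : 𝓢(E n, ℝ)) : 𝓢(E n, ℂ) := 𝓕 (cs u)

theorem cx_eq {n : ℕ} (u : 𝓢(E n, ℝ)) : cx u = 𝓕⁻ (ft u : E n → ℂ) := by
  rw [← cs_coe, ft, ← fourierInv_coe]
  congr 1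
  exact (FourierTransform.fourierInv_fourier_eq (cs u)).symm

theorem t_RP : S_RP := by
  intro n Φ hΦ u
  have hw : Integrable (ft u : E n → ℂ) := (ft u).integrable
  refine ⟨fun j => ?_, fun i j hij x => ?_, fun L => ?_⟩
  · rw [cx_eq, S_inv Φ j hw]
    exact ⟨cont_inv (mul_int Φ j hw), _, norm_inv_le _⟩
  · rw [cx_eq, S_inv Φ i hw, S_inv Φ j (mul_int Φ i hw)]
    have key : (fun ξ => mul Φ j ξ * (mul Φ i ξ * ft u ξ)) = fun ξ => mul Φ i ξ * ft u ξ := ?_
    · rw [key]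
    funext ξ
    by_cases h : mul Φ i ξ = 0
    · rw [h]; simp
    · have h1 : ‖(2 : ℝ) ^ (-i) • ξ‖ < 2 := by
        by_contra hc
        exact h (hΦ.zero _ (not_lt.mp hc))
      have h2 : ‖(2 : ℝ) ^ (-j) • ξ‖ ≤ 1 := by
        rw [norm_smul, norm_zpow, Real.norm_ofNat] at h1 ⊢
        have h3 : (2 : ℝ) ^ (-j) ≤ (2 : ℝ) ^ (-i) * (1 / 2) := by
          have : (2 : ℝ) ^ (-i) * (1 / 2) = (2 : ℝ) ^ (-i - 1) := by
            rw [zpow_sub₀ (by norm_num), zpow_one]; ring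
          rw [this]
          exact zpow_le_zpow_right₀ (by norm_num) (by omega)
        have := mul_le_mul_of_nonneg_right h3 (norm_nonneg ξ)
        nlinarith
      have h4 : mul Φ j ξ = 1 := hΦ.one _ h2
      rw [h4, one_mul]
  · obtain ⟨B, hB, hBd⟩ := mul_bd Φ
    refine ⟨(1 + B) * ∫ ξ, ‖ξ‖ ^ L * ‖ft u ξ‖, fun i x => ?_⟩
    have e1 : S Φ (i : ℤ) (cx u) x - cx u x =
        𝓕⁻ (fun ξ => (mul Φ i ξ - 1) * ft u ξ) x := by
      rw [cx_eq, S_inv Φ i hw, Real.fourierInv_eq, Real.fourierInv_eq, Real.fourierInv_eq]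
      have i1 := inv_int (mul_int Φ i hw) x
      have i2 := inv_int hw x
      rw [← integral_sub i1 i2]
      refine integral_congr_ae (Eventually.of_forall fun ξ => ?_)
      show Real.fourierChar (inner ℝ ξ x) • (mul Φ i ξ * ft u ξ) -
        Real.fourierChar (inner ℝ ξ x) • ft u ξ =
        Real.fourierChar (inner ℝ ξ x) • ((mul Φ i ξ - 1) * ft u ξ)
      rw [sub_mul, one_mul, smul_sub]
    rw [e1]
    refine (norm_inv_le _ _).trans ?_
    have hI := (ft u).integrable_pow_mul volume L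
    rw [mul_assoc, mul_comm (∫ ξ, ‖ξ‖ ^ L * ‖ft u ξ‖), ← mul_assoc, ← integral_const_mul]
    refine integral_mono_of_nonneg (Eventually.of_forall fun ξ => norm_nonneg _)
      (hI.const_mul _) (Eventually.of_forall fun ξ => ?_)
    simp only
    rw [norm_mul]
    by_cases h : ‖(2 : ℝ) ^ (-(i : ℤ)) • ξ‖ ≤ 1
    · have h4 : mul Φ i ξ = 1 := hΦ.one _ h
      rw [h4, sub_self, norm_zero, zero_mul]
      positivity
    · rw [not_le] at h
      rw [norm_smul, norm_zpow, Real.norm_ofNat, zpow_neg, zpow_natCast] at h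
      have h5 : ‖mul Φ i ξ - 1‖ ≤ 1 + B := by
        refine (norm_sub_le _ _).trans ?_
        rw [norm_one]
        linarith [hBd i ξ]
      have h6 : (1 : ℝ) ≤ (1 / 2) ^ (i * L) * ‖ξ‖ ^ L := by
        rw [pow_mul, ← mul_pow]
        refine one_le_pow₀ ?_
        rw [one_div, inv_pow]
        exact h.le
      calc ‖mul Φ i ξ - 1‖ * ‖ft u ξ‖ ≤ (1 + B) * ‖ft u ξ‖ :=
            mul_le_mul_of_nonneg_right h5 (norm_nonneg _)
        _ ≤ (1 + B) * ‖ft u ξ‖ * ((1 / 2) ^ (i * L) * ‖ξ‖ ^ L) :=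
            le_mul_of_one_le_right (by positivity) h6
        _ = (1 + B) * (1 / 2) ^ (i * L) * (‖ξ‖ ^ L * ‖ft u ξ‖) := by ring

theorem t_CUT : S_CUT := by
  intro n
  let b : ContDiffBump (0 : E n) := ⟨1, 2, one_pos, by norm_num⟩
  have hc : HasCompactSupport (fun x => ((b x : ℝ) : ℂ)) :=
    b.hasCompactSupport.comp_left (g := fun t : ℝ => (t : ℂ)) (by simp)
  have hd : ContDiff ℝ ∞ (fun x => ((b x : ℝ) : ℂ)) :=
    Complex.ofRealCLM.contDiff.comp b.contDiff
  let B : 𝓢(E n, ℂ) := hc.toSchwartzMap hd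
  have hB : ∀ x, B x = ((b x : ℝ) : ℂ) := fun x => rfl
  refine ⟨𝓕⁻ B, ⟨fun ξ hξ => ?_, fun ξ hξ => ?_⟩⟩
  · rw [← fourier_coe, FourierTransform.fourier_fourierInv_eq, hB, b.one_of_mem_closedBall]
    · norm_num
    · rw [Metric.mem_closedBall, dist_zero_right]
      exact hξ
  · rw [← fourier_coe, FourierTransform.fourier_fourierInv_eq, hB, b.zero_of_le_dist]
    · norm_num
    · rw [dist_zero_right]
      exact hξ

end Run7.h126.BC
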